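import Pool.Agent.N556.TW.Frob

/-! # Polynomials without zeros modulo primes: Chebotarev (helper556) -/

set_option autoImplicit false

namespace Pool.Agent.N556.TW

open Polynomial NumberField Pool.Agent.W401.Cheb Pool.Agent.TH888.B1

section gal

variable {L : Type} [Field L] [NumberField L] [IsGalois ℚ L]

/-- Chebotarev -/
theorem rootless_diverges (g : ℤ[X]) (hg : g.leadingCoeff ≠ 0)
    (hs : (g.map (algebraMap ℤ L)).Splits) {ℓ : ℕ} (σ : Gal(L/ℚ))
    (hσ : ∀ α : L, aeval α g = 0 → ∀ j : ℕ, ¬ ℓ ∣ j → (σ ^ j) α ≠ α) :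
    ¬ Summable (fun n : ℕ => {p : ℕ | p.Prime ∧ Rootless ℓ g p}.indicator
      (fun n : ℕ => (1 : ℝ) / n) n) := by
  classical
  obtain ⟨c, hc⟩ : ∃ c : ℤ, c = g.leadingCoeff := ⟨_, rfl⟩
  obtain ⟨G, hG⟩ : ∃ G : L[X], G = g.map (Int.castRingHom L) := ⟨_, rfl⟩
  have hinj : Function.Injective (Int.castRingHom L) := RingHom.injective_int _
  have hsG : G.Splits := by
    rw [hG]
    exact hs
  have hc0 : c ≠ 0 := by rwa [hc]
  have hcL : (c : L) ≠ 0 := Int.cast_ne_zero.2 hc0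
  have hlcG : G.leadingCoeff = (c : L) := by
    rw [hG, leadingCoeff_map_of_injective hinj, eq_intCast, hc]
  have hG0 : G ≠ 0 := by
    intro h
    apply hcL
    rw [← hlcG, h, leadingCoeff_zero]
  have hroot : ∀ α : L, α ∈ G.roots ↔ aeval α g = 0 := by
    intro α
    rw [mem_roots hG0, IsRoot, hG, eval_map, aev_ev]
  -- integral multiples of the roots
  have hYex : ∀ α : L, ∃ y : 𝓞 L, α ∈ G.roots → (y : L) = (c : L) * α := by
    intro α
    by_cases h : α ∈ G.roots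
    · refine ⟨⟨_, isIntegral_leadingCoeff_smul g α ((hroot α).1 h)⟩, fun _ => ?_⟩
      change g.leadingCoeff • α = _
      rw [zsmul_eq_mul, hc]
    · exact ⟨0, fun h' => absurd h' h⟩
  choose Y hY using hYex
  -- the factorisation over the integers of `L`
  have hfac := fac (algebraMap (𝓞 L) L) RingOfIntegers.coe_injective g (c : L) ((c : ℤ) : 𝓞 L)
    (map_intCast _ _) G hG hlcG hsG Y hY
  -- the excluded primes
  obtain ⟨T, hT⟩ : ∃ T : Finset (L × L), ∀ z : L × L, z ∈ T ↔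
      (z.1 ∈ G.roots ∧ z.2 ∈ G.roots) ∧ z.1 ≠ z.2 := by
    refine ⟨(G.roots.toFinset ×ˢ G.roots.toFinset).filter fun z => z.1 ≠ z.2, fun z => ?_⟩
    rw [Finset.mem_filter, Finset.mem_product, Multiset.mem_toFinset, Multiset.mem_toFinset]
  obtain ⟨q, hq⟩ : ∃ q : L × L → ℕ, ∀ z, q z = Ideal.absNorm (Ideal.span {Y z.1 - Y z.2}) :=
    ⟨_, fun _ => rfl⟩
  obtain ⟨M, hM⟩ : ∃ M : ℕ, M = c.natAbs * ∏ z ∈ T, q z := ⟨_, rfl⟩
  have hM0 : M ≠ 0 := by
    rw [hM]
    refine mul_ne_zero (Int.natAbs_ne_zero.2 hc0) (Finset.prod_ne_zero_iff.2 fun z hz => ?_)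
    rw [hT] at hz
    rw [Ne, hq, Ideal.absNorm_eq_zero_iff, Ideal.span_singleton_eq_bot, sub_eq_zero]
    intro h1
    have h2 := congrArg (algebraMap (𝓞 L) L) h1
    have h3 : (c : L) * z.1 = c * z.2 := by
      rw [← hY z.1 hz.1.1, ← hY z.2 hz.1.2]
      exact h2
    exact hz.2 (mul_left_cancel₀ hcL h3)
  have hfin : {p : ℕ | p ∣ M}.Finite := by
    refine (Set.finite_Iic M).subset fun p hp => ?_
    exact Nat.le_of_dvd (Nat.pos_of_ne_zero hM0) hp
  refine diverges_mono ?_ (diverges_diff hfin (frob_diverges L σ))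
  rintro p ⟨⟨hp, hx⟩, hpM⟩
  have hpf : Fact p.Prime := ⟨hp⟩
  have hpM' : ¬ p ∣ M := hpM
  obtain ⟨φ, hφ⟩ := exists_hom σ hp hx
  refine ⟨hp, ?_⟩
  intro k _ m hcard hm t hzero
  obtain ⟨ι⟩ := embeds (p := p) hcard
  have hlc : (c : AlgebraicClosure (ZMod p)) ≠ 0 := by
    have h3 : ((c : ℤ) : ZMod p) ≠ 0 := by
      rw [Ne, ZMod.intCast_zmod_eq_zero_iff_dvd, Int.natCast_dvd]
      intro hd
      apply hpM'
      rw [hM]
      exact hd.mul_right _
    intro h4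
    apply h3
    apply (algebraMap (ZMod p) (AlgebraicClosure (ZMod p))).injective
    rw [map_intCast, map_zero]
    exact h4
  have hu : eval₂ (Int.castRingHom (AlgebraicClosure (ZMod p))) (ι t) g = 0 := by
    rw [← ev_map, ← aev_ev, hzero, map_zero]
  have hut : (ι t) ^ p ^ m = ι t := by
    have hfk : Finite k := (Nat.card_pos_iff.1 (by rw [hcard]; exact pow_pos hp.pos m)).2
    let _ : Fintype k := Fintype.ofFinite k
    rw [← map_pow, ← hcard, Nat.card_eq_fintype_card, FiniteField.pow_card]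
  -- a root of `g` above
  obtain ⟨α, hα, hα2⟩ := root_of φ g _ _ Y _ hfac (ι t) hu (by rw [map_intCast]; exact hlc)
  rw [map_intCast] at hα2
  have hβ : (σ ^ m) α ∈ G.roots := by
    rw [hroot, aev_ev]
    have h1 := ev_map ((σ ^ m : Gal(L/ℚ)) : L →+* L) α g
    rw [← aev_ev, (hroot α).1 hα, map_zero] at h1
    exact h1.symm
  have hYβ : Y ((σ ^ m) α) = σ ^ m • Y α := by
    apply RingOfIntegers.coe_injective
    have h1 : (algebraMap (𝓞 L) L) (Y ((σ ^ m) α)) = c * (σ ^ m) α := hY _ hβ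
    rw [h1]
    change _ = ((σ ^ m • Y α : 𝓞 L) : L)
    rw [smul_coe, hY α hα, map_mul, map_intCast]
  have hφ2 : φ (Y ((σ ^ m) α) - Y α) = 0 := by
    rw [map_sub, hYβ, frob_pow hφ, hα2, mul_pow, hut, int_pow, sub_self]
  have hz : ((σ ^ m) α, α) ∈ T := by
    rw [hT]
    exact ⟨⟨hβ, hα⟩, hσ α ((hroot α).1 hα) m hm⟩
  have h6 : φ ((q ((σ ^ m) α, α) : ℕ) : 𝓞 L) = 0 := by
    have h5 : ((q ((σ ^ m) α, α) : ℕ) : 𝓞 L) ∈ Ideal.span {Y ((σ ^ m) α) - Y α} := by
      rw [hq]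
      exact Ideal.absNorm_mem _
    obtain ⟨u, hu⟩ := Ideal.mem_span_singleton.1 h5
    rw [hu, map_mul, hφ2, zero_mul]
  rw [map_natCast] at h6
  have h7 : p ∣ q ((σ ^ m) α, α) := (CharP.cast_eq_zero_iff (AlgebraicClosure (ZMod p)) p _).1 h6
  apply hpM'
  rw [hM]
  exact (h7.trans (Finset.dvd_prod_of_mem q hz)).mul_left _

end gal

end Pool.Agent.N556.TW
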