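import Pool.Agent.N556.TW.Loc

/-! # Pencils `a f(x) = g(y)`: rational places (helper556) -/

set_option autoImplicit false

namespace Pool.Agent.N556.TW

open Polynomial

theorem map_aev {A B : Type} [CommRing A] [CommRing B] (ρ : A →+* B) (x : A) (f : ℤ[X]) :
    ρ (aeval x f) = aeval (ρ x) f := by
  rw [aeval_def, hom_eval₂, aeval_def]
  congr 1
  exact RingHom.ext_int _ _

theorem aev_rev {F : Type} [Field F] (x : F) (hx : x ≠ 0) (f : ℤ[X]) :
    aeval x f = aeval x⁻¹ f.reverse * x ^ f.natDegree := by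
  let _ : Invertible x := invertibleOfNonzero hx
  have h := eval₂_reverse_mul_pow (algebraMap ℤ F) x f
  rw [aeval_def, aeval_def, ← h, invOf_eq_inv]

theorem aev_zero {K : Type} [Field K] (f : ℤ[X]) :
    aeval (0 : K) f.reverse = (f.leadingCoeff : K) := by
  rw [aeval_def, eval₂_at_zero, coeff_zero_reverse]
  rfl

theorem no_place {K F : Type} [Field K] [CharZero K] [Field F] [Algebra K F] {ℓ : ℕ} (hℓ : 0 < ℓ)
    (f g : ℤ[X]) (a : ℤ) (ha : a ≠ 0) (hf : ℓ ∣ f.natDegree) (hg : ℓ ∣ g.natDegree)
    (hf0 : 0 < f.natDegree) (hg0 : 0 < g.natDegree)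
    (h1 : ∀ x y : K, (a : K) * aeval x f ≠ aeval y g)
    (h2 : ∀ z : K, (g.leadingCoeff : K) * z ^ ℓ ≠ a * f.leadingCoeff)
    (x y : F) (hxy : (a : F) * aeval x f = aeval y g) (O : ValuationSubring F)
    (hO : ∀ c : K, algebraMap K F c ∈ O)
    (hres : ∀ z ∈ O, ∃ c : K, z - algebraMap K F c ∈ O.nonunits) : False := by
  have hcF : CharZero F := charZero_of_injective_algebraMap (algebraMap K F).injective
  -- the residue map
  let i : K →+* O := (algebraMap K F).codRestrict O.toSubring hO
  let π : O →+* IsLocalRing.ResidueField O := IsLocalRing.residue O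
  have hsurj : Function.Surjective (π.comp i) := by
    intro t
    obtain ⟨z, rfl⟩ := IsLocalRing.residue_surjective t
    obtain ⟨c, hc⟩ := hres z z.2
    refine ⟨c, ?_⟩
    rw [ValuationSubring.mem_nonunits_iff_exists_mem_maximalIdeal] at hc
    obtain ⟨hc1, hc2⟩ := hc
    have h3 : π (z - i c) = 0 := by
      rw [IsLocalRing.residue_eq_zero_iff]
      exact hc2
    rw [map_sub, sub_eq_zero] at h3
    exact h3.symm
  let e : K ≃+* IsLocalRing.ResidueField O :=
    RingEquiv.ofBijective (π.comp i) ⟨(π.comp i).injective, hsurj⟩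
  let ρ : O →+* K := (e.symm : IsLocalRing.ResidueField O →+* K).comp π
  have hρ0 : ∀ z : O, z ∈ IsLocalRing.maximalIdeal O → ρ z = 0 := by
    intro z hz
    have h3 : π z = 0 := (IsLocalRing.residue_eq_zero_iff z).2 hz
    change e.symm (π z) = 0
    rw [h3, map_zero]
  have hint : ∀ n : ℤ, n ≠ 0 → O.valuation (n : F) = 1 := by
    intro n hn
    have h3 : (n : F) ∈ O := by
      simpa using hO (n : K)
    have h4 : (n : F)⁻¹ ∈ O := by
      simpa using hO ((n : K)⁻¹)
    have h5 : (n : F) ≠ 0 := Int.cast_ne_zero.2 hn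
    refine le_antisymm ((ValuationSubring.valuation_le_one_iff _ _).2 h3) ?_
    have h6 := (ValuationSubring.valuation_le_one_iff _ _).2 h4
    rw [map_inv₀] at h6
    have h7 : O.valuation (n : F) ≠ 0 := (Valuation.ne_zero_iff _).2 h5
    exact (inv_le_one₀ (zero_lt_iff.2 h7)).1 h6
  have hintle : ∀ n : ℤ, O.valuation (n : F) ≤ 1 := by
    intro n
    rcases eq_or_ne n 0 with rfl | hn
    · simp
    · exact (hint n hn).le
  have hlf : f.leadingCoeff ≠ 0 := by
    rw [Ne, leadingCoeff_eq_zero]
    rintro rfl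
    simp at hf0
  have hlg : g.leadingCoeff ≠ 0 := by
    rw [Ne, leadingCoeff_eq_zero]
    rintro rfl
    simp at hg0
  by_cases hx : x ∈ O
  · by_cases hy : y ∈ O
    · apply h1 (ρ ⟨x, hx⟩) (ρ ⟨y, hy⟩)
      have h3 : ((a : ℤ) : O) * aeval (⟨x, hx⟩ : O) f = aeval (⟨y, hy⟩ : O) g := by
        apply Subtype.ext
        have e1 := map_aev O.subtype (⟨x, hx⟩ : O) f
        have e2 := map_aev O.subtype (⟨y, hy⟩ : O) g
        change O.subtype (((a : ℤ) : O) * aeval (⟨x, hx⟩ : O) f) = O.subtype (aeval (⟨y, hy⟩ : O) g)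
        rw [map_mul, e1, e2, map_intCast]
        exact hxy
      have h4 := congrArg ρ h3
      rw [map_mul, map_aev, map_aev, map_intCast] at h4
      exact h4
    · have hy' : 1 < O.valuation y := by
        rw [← not_le, ValuationSubring.valuation_le_one_iff]
        exact hy
      have h3 := val_big O.valuation hintle g (hint _ hlg) y hy'
      have h4 := val_small O.valuation hintle f x ((ValuationSubring.valuation_le_one_iff _ _).2 hx)
      rw [← hxy, map_mul, hint a ha, one_mul] at h3
      rw [h3] at h4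
      exact absurd h4 (not_le.2 (one_lt_pow₀ hy' hg0.ne'))
  · have hx' : 1 < O.valuation x := by
      rw [← not_le, ValuationSubring.valuation_le_one_iff]
      exact hx
    have h3 := val_big O.valuation hintle f (hint _ hlf) x hx'
    by_cases hy : y ∈ O
    · have h4 := val_small O.valuation hintle g y ((ValuationSubring.valuation_le_one_iff _ _).2 hy)
      rw [← hxy, map_mul, hint a ha, one_mul, h3] at h4
      exact absurd h4 (not_le.2 (one_lt_pow₀ hx' hf0.ne'))
    · have hy' : 1 < O.valuation y := by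
        rw [← not_le, ValuationSubring.valuation_le_one_iff]
        exact hy
      have h4 := val_big O.valuation hintle g (hint _ hlg) y hy'
      rw [← hxy, map_mul, hint a ha, one_mul, h3] at h4
      obtain ⟨m, hm⟩ := hf
      obtain ⟨n, hn⟩ := hg
      have hx0 : x ≠ 0 := by
        rintro rfl
        exact hx O.zero_mem
      have hy0 : y ≠ 0 := by
        rintro rfl
        exact hy O.zero_mem
      obtain ⟨z, hz⟩ : ∃ z : F, z = y ^ n / x ^ m := ⟨_, rfl⟩
      have hzl : z ^ ℓ * x ^ f.natDegree = y ^ g.natDegree := by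
        rw [hz, hm, hn, div_pow, ← pow_mul, ← pow_mul, mul_comm m ℓ, mul_comm n ℓ,
          div_mul_cancel₀ _ (pow_ne_zero _ hx0)]
      have hzv : O.valuation z = 1 := by
        have h5 : O.valuation z ^ ℓ = 1 := by
          have h6 := congrArg O.valuation hzl
          rw [map_mul, map_pow, map_pow, map_pow, ← h4] at h6
          have h7 : O.valuation x ^ f.natDegree ≠ 0 :=
            pow_ne_zero _ (zero_lt_one.trans hx').ne'
          exact mul_right_cancel₀ h7 (by rw [h6, one_mul])
        exact (pow_eq_one_iff_of_nonneg zero_le hℓ.ne').1 h5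
      have hzO : z ∈ O := (ValuationSubring.valuation_le_one_iff _ _).1 hzv.le
      have hinv : ∀ t : F, 1 < O.valuation t → ∃ t' : O, (t' : F) = t⁻¹ ∧ ρ t' = 0 := by
        intro t ht
        have h5 : O.valuation t⁻¹ < 1 := by
          rw [map_inv₀]
          exact inv_lt_one_of_one_lt₀ ht
        have h6 : t⁻¹ ∈ O := (ValuationSubring.valuation_le_one_iff _ _).1 h5.le
        refine ⟨⟨t⁻¹, h6⟩, rfl, hρ0 _ ?_⟩
        exact (ValuationSubring.valuation_lt_one_iff O ⟨t⁻¹, h6⟩).2 h5
      obtain ⟨x1, hx1, hx2⟩ := hinv x hx'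
      obtain ⟨y1, hy1, hy2⟩ := hinv y hy'
      have h5 : ((a : ℤ) : O) * aeval x1 f.reverse = aeval y1 g.reverse * (⟨z, hzO⟩ : O) ^ ℓ := by
        apply Subtype.ext
        change O.subtype (((a : ℤ) : O) * aeval x1 f.reverse) =
          O.subtype (aeval y1 g.reverse * (⟨z, hzO⟩ : O) ^ ℓ)
        rw [map_mul, map_mul, map_pow, map_aev, map_aev, map_intCast]
        change (a : F) * aeval (x1 : F) f.reverse = aeval (y1 : F) g.reverse * z ^ ℓ
        rw [hx1, hy1]
        have h6 : x ^ f.natDegree ≠ 0 := pow_ne_zero _ hx0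
        apply mul_right_cancel₀ h6
        rw [mul_assoc, ← aev_rev x hx0, hxy, mul_assoc, hzl, ← aev_rev y hy0]
      have h6 := congrArg ρ h5
      rw [map_mul, map_mul, map_pow, map_aev, map_aev, map_intCast, hx2, hy2, aev_zero,
        aev_zero] at h6
      exact h2 _ h6.symm

end Pool.Agent.N556.TW
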