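import Pool.Agent.N556.TW.Grp
import Pool.Agent.N556.TW.Place

/-! # Irreducible polynomials of prime power degree: an automorphism without fixed zeros (helper556) -/

set_option autoImplicit false

namespace Pool.Agent.N556.TW

open Polynomial NumberField

theorem irr_sigma {L : Type} [Field L] [NumberField L] [IsGalois ℚ L] (g : ℤ[X])
    (hirr : Irreducible (g.map (Int.castRingHom ℚ))) (hs : (g.map (algebraMap ℤ L)).Splits)
    {ℓ k : ℕ} (hℓ : ℓ.Prime) (hk : 0 < k) (hd : g.natDegree = ℓ ^ k) :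
    ∃ σ : Gal(L/ℚ), ∀ α : L, aeval α g = 0 → ∀ j : ℕ, ¬ ℓ ∣ j → (σ ^ j) α ≠ α := by
  classical
  set q : ℚ[X] := g.map (Int.castRingHom ℚ) with hq
  have hqm : q.map (algebraMap ℚ L) = g.map (algebraMap ℤ L) := by
    rw [hq, Polynomial.map_map]
    congr 1
    exact RingHom.ext_int _ _
  have hqa : ∀ α : L, aeval α q = aeval α g := by
    intro α
    rw [aeval_def, ← eval_map, hqm, eval_map_algebraMap]
  set G : L[X] := g.map (algebraMap ℤ L) with hG
  have hg0 : g ≠ 0 := by
    rintro rfl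
    rw [natDegree_zero] at hd
    exact (pow_pos hℓ.pos k).ne hd
  have hG0 : G ≠ 0 := by
    rw [hG, Ne, Polynomial.map_eq_zero_iff (RingHom.injective_int (algebraMap ℤ L))]
    exact hg0
  have hroot : ∀ α : L, α ∈ G.roots.toFinset ↔ aeval α g = 0 := by
    intro α
    rw [Multiset.mem_toFinset, mem_roots hG0, IsRoot, hG, eval_map_algebraMap]
  have hnd : G.roots.Nodup := by
    apply nodup_roots
    rw [← hqm]
    exact hirr.separable.map
  have hcard : Nat.card {α : L // aeval α g = 0} = ℓ ^ k := by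
    rw [Nat.subtype_card G.roots.toFinset hroot, Multiset.toFinset_card_of_nodup hnd,
      ← hs.natDegree_eq_card_roots, ← hd, hG,
      natDegree_map_eq_of_injective (RingHom.injective_int (algebraMap ℤ L))]
  have hfinR : Finite {α : L // aeval α g = 0} :=
    (Nat.card_pos_iff.1 (by rw [hcard]; exact pow_pos hℓ.pos k)).2
  have hmap : ∀ (σ : Gal(L/ℚ)) (α : L), aeval α g = 0 → aeval (σ α) g = 0 := by
    intro σ α hα
    have h1 := map_aev (σ : L →+* L) α g
    rw [hα, map_zero] at h1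
    exact h1.symm
  let A : MulAction Gal(L/ℚ) {α : L // aeval α g = 0} :=
    { smul := fun σ α => ⟨σ α.1, hmap σ α.1 α.2⟩
      one_smul := fun α => Subtype.ext rfl
      mul_smul := fun σ τ α => Subtype.ext rfl }
  have hsm : ∀ (σ : Gal(L/ℚ)) (α : {α : L // aeval α g = 0}), (σ • α).1 = σ α.1 :=
    fun _ _ => rfl
  have hmin : ∀ α : L, aeval α g = 0 → minpoly ℚ α = q * C q.leadingCoeff⁻¹ := by
    intro α hα
    exact (minpoly.eq_of_irreducible hirr (by rw [hqa, hα])).symm
  have htr : MulAction.IsPretransitive Gal(L/ℚ) {α : L // aeval α g = 0} := by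
    refine ⟨fun α β => ?_⟩
    have h1 : IsConjRoot ℚ α.1 β.1 := by
      unfold IsConjRoot
      rw [hmin _ α.2, hmin _ β.2]
    obtain ⟨σ, hσ⟩ := isConjRoot_iff_exists_algEquiv.1 h1
    exact ⟨σ⁻¹, by
      apply Subtype.ext
      rw [hsm, ← hσ]
      exact AlgEquiv.symm_apply_apply σ _⟩
  obtain ⟨σ, hσ⟩ := exists_free (G := Gal(L/ℚ)) (R := {α : L // aeval α g = 0}) hℓ hk hcard
  refine ⟨σ, fun α hα j hj h => ?_⟩
  apply hσ ⟨α, hα⟩ j hj
  apply Subtype.ext
  rw [hsm]
  exact h

end Pool.Agent.N556.TW
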