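import Pool.Agent.N556.TW.Cheb
import Pool.Agent.N556.TW.Irr
import Pool.Agent.N680.TH.Cheb
import Pool.Agent.N680.TH.Thin
import Pool.Agent.N680.TH.Prm

/-! # One null set for all pencils `a f(x) = g(y)` (helper556) -/

set_option autoImplicit false

open Polynomial

namespace Pool.Agent.N556.TW

open Finset NumberField IsDedekindDomain Pool.Agent.N666.TM Pool.Agent.TH888.B1
open Pool.Agent.N666.VE (primes)
open Pool.Agent.N680.TH (Once exists_nf one_null exists_prime)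

theorem countable_poly : Countable ℤ[X] := by
  rw [← Cardinal.mk_le_aleph0_iff]
  refine (Polynomial.cardinalMk_le_max).trans ?_
  simp

/-- the primes modulo which `g` has no zeros in the fields of degree prime to `ℓ` -/
def PS (ℓ : ℕ) (g : ℤ[X]) : Set ℕ := {p : ℕ | p.Prime ∧ Rootless ℓ g p}

theorem inf_diverges (g : ℤ[X]) (hg : g.leadingCoeff ≠ 0) {ℓ : ℕ} (h : (PS ℓ g).Infinite) :
    ¬ Summable (fun n : ℕ => (PS ℓ g).indicator (fun n : ℕ => (1 : ℝ) / n) n) := by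
  obtain ⟨L, _, _, _, hs⟩ := exists_nf g
  obtain ⟨σ, hσ⟩ := sigma_of (L := L) g hg h
  exact rootless_diverges g hg hs σ hσ

theorem irr_diverges (g : ℤ[X]) (hirr : Irreducible (g.map (Int.castRingHom ℚ))) {ℓ k : ℕ}
    (hℓ : ℓ.Prime) (hk : 0 < k) (hd : g.natDegree = ℓ ^ k) :
    ¬ Summable (fun n : ℕ => (PS ℓ g).indicator (fun n : ℕ => (1 : ℝ) / n) n) := by
  obtain ⟨L, _, _, _, hs⟩ := exists_nf g
  obtain ⟨σ, hσ⟩ := irr_sigma (L := L) g hirr hs hℓ hk hd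
  have hg : g.leadingCoeff ≠ 0 := by
    rw [Ne, leadingCoeff_eq_zero]
    rintro rfl
    rw [natDegree_zero] at hd
    exact (pow_pos hℓ.pos k).ne hd
  exact rootless_diverges g hg hs σ hσ

theorem infinite_of_diverges {A : Set ℕ}
    (h : ¬ Summable (fun n : ℕ => A.indicator (fun n : ℕ => (1 : ℝ) / n) n)) : A.Infinite := by
  intro hfin
  apply h
  apply summable_of_ne_finset_zero (s := hfin.toFinset)
  intro n hn
  rw [Set.Finite.mem_toFinset] at hn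
  exact Set.indicator_of_notMem hn _

theorem irr_infinite (g : ℤ[X]) (hirr : Irreducible (g.map (Int.castRingHom ℚ))) {ℓ k : ℕ}
    (hℓ : ℓ.Prime) (hk : 0 < k) (hd : g.natDegree = ℓ ^ k) : (PS ℓ g).Infinite :=
  infinite_of_diverges (irr_diverges g hirr hℓ hk hd)

/-- the conditions on the pencil -/
structure Fam (ℓ : ℕ) (g : ℤ[X]) (b : ℤ) : Prop where
  b0 : b ≠ 0
  g0 : g.leadingCoeff ≠ 0
  inf : (PS ℓ g).Infinite

/-- the good primes -/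
def Good (ℓ : ℕ) (g : ℤ[X]) (b : ℤ) : Set ℕ := PS ℓ g \ {p : ℕ | (p : ℤ) ∣ g.leadingCoeff * b}

theorem good_diverges {ℓ : ℕ} {g : ℤ[X]} {b : ℤ} (h : Fam ℓ g b) :
    ¬ Summable (fun n : ℕ => (Good ℓ g b).indicator (fun n : ℕ => (1 : ℝ) / n) n) := by
  have hM0 : g.leadingCoeff * b ≠ 0 := mul_ne_zero h.g0 h.b0
  have hfin : {p : ℕ | (p : ℤ) ∣ g.leadingCoeff * b}.Finite := by
    refine (Set.finite_Iic (g.leadingCoeff * b).natAbs).subset fun p hp => ?_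
    exact Nat.le_of_dvd (Int.natAbs_pos.2 hM0) (Int.natCast_dvd.1 hp)
  exact diverges_diff hfin (inf_diverges g h.g0 h.inf)

/-- one null set for all pencils -/
theorem fin {F : Finset ℝ} {a : ℝ → ℝ} {c : ℝ}
    (h : c ∈ F ∧ (∀ t ∈ F, t ≤ c) ∧ 0 < c ∧ (∀ m : ℕ, c ≠ m) ∧ 0 < a c) :
    ∃ E : Set ℕ, NullIn (fun N => Ioc N (2 * N)) E ∧ NullIn primes E ∧
      ∀ (ℓ : ℕ) (g : ℤ[X]) (b : ℤ), Fam ℓ g b →
        {n : ℕ | n ∉ E ∧ ¬ ∃ p ∈ Good ℓ g b, Once p ⌊∑ t ∈ F, a t * (n : ℝ) ^ t⌋}.Finite := by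
  have hcz := countable_poly
  obtain ⟨E, h1, h2, h3⟩ := one_null h
    (fun q : {q : ℕ × ℤ[X] × ℤ // Fam q.1 q.2.1 q.2.2} => Good q.1.1 q.1.2.1 q.1.2.2)
    (fun _ _ hp => hp.1.1) (fun q => good_diverges q.2)
  refine ⟨E, h1, h2, fun ℓ g b hF => ?_⟩
  exact h3 ⟨(ℓ, g, b), hF⟩

theorem not_mem_of {K : Type} [Field K] [NumberField K] (v : HeightOneSpectrum (𝓞 K)) {p : ℕ}
    (hp : p.Prime) (hpv : (p : 𝓞 K) ∈ v.asIdeal) {n : ℤ} (hn : ¬ (p : ℤ) ∣ n) :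
    (n : 𝓞 K) ∉ v.asIdeal := by
  intro h
  obtain ⟨u, w, huw⟩ := (Nat.prime_iff_prime_int.1 hp).coprime_iff_not_dvd.2 hn
  apply v.isPrime.ne_top
  rw [Ideal.eq_top_iff_one]
  have h1 := congrArg (Int.cast : ℤ → 𝓞 K) huw
  push_cast at h1
  rw [← h1]
  exact v.asIdeal.add_mem (v.asIdeal.mul_mem_left _ hpv) (v.asIdeal.mul_mem_left _ h)

/-- no points over the number fields of degree prime to `ℓ` -/
theorem none {ℓ : ℕ} (hℓ : ℓ.Prime) (g : ℤ[X]) (b : ℤ) {p : ℕ} (hp : p ∈ Good ℓ g b)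
    (hg : ℓ ∣ g.natDegree) (hg0 : 0 < g.natDegree) (f : ℤ[X]) (hf : ℓ ∣ f.natDegree)
    (hf0 : 0 < f.natDegree) (hb : ∃ m : ℕ, f.leadingCoeff ∣ b ^ m) (a : ℤ) (ha : Once p a)
    (K : Type) [Field K] [NumberField K] (hK : ¬ ℓ ∣ Module.finrank ℚ K) (F : Type) [Field F]
    [Algebra K F] (x y : F) (hxy : (a : F) * aeval x f = aeval y g) (O : ValuationSubring F)
    (hO : ∀ c : K, algebraMap K F c ∈ O)
    (hres : ∀ z ∈ O, ∃ c : K, z - algebraMap K F c ∈ O.nonunits) : False := by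
  obtain ⟨⟨hpp, hr⟩, hpm⟩ := hp
  have hpm' : ¬ (p : ℤ) ∣ g.leadingCoeff * b := hpm
  have hpz : Prime (p : ℤ) := Nat.prime_iff_prime_int.1 hpp
  obtain ⟨v, e, m, he, hm, hpv, ha1, ha2, hcard⟩ := exists_prime K hK hpp a ha.1 ha.2
  have hlg : (g.leadingCoeff : 𝓞 K) ∉ v.asIdeal :=
    not_mem_of v hpp hpv fun hd => hpm' (hd.mul_right _)
  have hlf : (f.leadingCoeff : 𝓞 K) ∉ v.asIdeal := by
    refine not_mem_of v hpp hpv fun hd => ?_
    obtain ⟨m, hm⟩ := hb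
    exact hpm' ((hpz.dvd_of_dvd_pow (hd.trans hm)).mul_left _)
  have ha0 : a ≠ 0 := by
    rintro rfl
    exact ha.2 (dvd_zero _)
  exact no_place hℓ.pos f g a ha0 hf hg hf0 hg0
    (fun x y => no_point v hcard hm he f g hr hf hg hlf hlg ha1 ha2 x y)
    (fun z => no_inf v he _ _ hlf hlg ha1 ha2 z) x y hxy O hO hres

end Pool.Agent.N556.TW
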