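import Mathlib

/-! # Elements without fixed points in transitive groups of prime power degree (helper556) -/

set_option autoImplicit false

namespace Pool.Agent.N556.TW

open MulAction

/-- in a finite group acting transitively on `ℓ ^ k` points, `k ≥ 1`, there is an element none of
whose powers with exponent prime to `ℓ` has a fixed point -/
theorem exists_free {G R : Type} [Group G] [Finite G] [Finite R] [MulAction G R]
    [IsPretransitive G R] {ℓ k : ℕ} (hℓ : ℓ.Prime) (hk : 0 < k) (hR : Nat.card R = ℓ ^ k) :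
    ∃ σ : G, ∀ (r : R) (j : ℕ), ¬ ℓ ∣ j → σ ^ j • r ≠ r := by
  classical
  have hF : Fact ℓ.Prime := ⟨hℓ⟩
  have hRpos : 1 < Nat.card R := by
    rw [hR]
    exact Nat.one_lt_pow hk.ne' hℓ.one_lt
  have hne : Nonempty R := (Nat.card_pos_iff.1 (by omega)).1
  obtain ⟨r0⟩ := hne
  obtain ⟨P⟩ : Nonempty (Sylow ℓ G) := inferInstance
  have hPi : ¬ ℓ ∣ (P : Subgroup G).index := P.not_dvd_index
  -- the orbit of `P` is everything
  have htr : ∀ r : R, r ∈ orbit (P : Subgroup G) r0 := by
    have h1 : (stabilizer G r0).index = ℓ ^ k := by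
      rw [index_stabilizer, orbit_eq_univ, Set.ncard_univ, hR]
    have h2 : ((P : Subgroup G) ⊓ stabilizer G r0).relIndex (P : Subgroup G) *
        (P : Subgroup G).index =
        ((P : Subgroup G) ⊓ stabilizer G r0).relIndex (stabilizer G r0) *
        (stabilizer G r0).index := by
      rw [Subgroup.relIndex_mul_index inf_le_left, Subgroup.relIndex_mul_index inf_le_right]
    rw [Subgroup.inf_relIndex_left, h1] at h2
    have h3 : ℓ ^ k ∣ (stabilizer G r0).relIndex (P : Subgroup G) := by
      have h4 : ℓ ^ k ∣ (stabilizer G r0).relIndex (P : Subgroup G) * (P : Subgroup G).index :=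
        ⟨_, by rw [h2, mul_comm]⟩
      exact (Nat.Coprime.pow_left k ((Nat.Prime.coprime_iff_not_dvd hℓ).2 hPi)).dvd_of_dvd_mul_right
        h4
    have h5 : (stabilizer G r0).relIndex (P : Subgroup G) = (orbit (P : Subgroup G) r0).ncard := by
      rw [← index_stabilizer]
      unfold Subgroup.relIndex
      congr 1
    rw [h5] at h3
    have h6 : 0 < (orbit (P : Subgroup G) r0).ncard := by
      rw [Set.ncard_pos (Set.toFinite _)]
      exact ⟨r0, mem_orbit_self _⟩
    have h7 := Nat.le_of_dvd h6 h3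
    have h8 : orbit (P : Subgroup G) r0 = Set.univ := by
      apply Set.eq_of_subset_of_ncard_le (Set.subset_univ _) _ (Set.toFinite _)
      rw [Set.ncard_univ, hR]
      exact h7
    intro r
    rw [h8]
    exact Set.mem_univ r
  have hP : IsPGroup ℓ (P : Subgroup G) := P.isPGroup'
  have hnil : Group.IsNilpotent (P : Subgroup G) := hP.isNilpotent
  have hst : stabilizer (P : Subgroup G) r0 ≠ ⊤ := by
    intro htop
    have h1 : (stabilizer (P : Subgroup G) r0).index = 1 := by rw [htop, Subgroup.index_top]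
    rw [index_stabilizer] at h1
    have h2 : orbit (P : Subgroup G) r0 = Set.univ := Set.eq_univ_of_forall htr
    rw [h2, Set.ncard_univ] at h1
    omega
  obtain ⟨M, hM, hle⟩ := (eq_top_or_exists_le_coatom (stabilizer (P : Subgroup G) r0)).resolve_left hst
  have hMn : M.Normal := Subgroup.NormalizerCondition.normal_of_coatom M
    Group.normalizerCondition_of_isNilpotent hM
  obtain ⟨σ, hσ⟩ : ∃ σ : (P : Subgroup G), σ ∉ M := by
    by_contra hcon
    push Not at hcon
    exact hM.1 (Subgroup.eq_top_iff' _ |>.2 hcon)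
  refine ⟨(σ : G), fun r j hj hfix => hσ ?_⟩
  obtain ⟨τ, hτ⟩ := htr r
  have hτ' : τ • r0 = r := hτ
  have h1 : σ ^ j • r = r := hfix
  have h2 : τ⁻¹ * σ ^ j * τ ∈ stabilizer (P : Subgroup G) r0 := by
    rw [mem_stabilizer_iff, mul_smul, mul_smul, hτ', h1, ← hτ', inv_smul_smul]
  have h3 : σ ^ j ∈ M := by
    have h4 := hMn.conj_mem _ (hle h2) τ
    have h5 : τ * (τ⁻¹ * σ ^ j * τ) * τ⁻¹ = σ ^ j := by group
    rwa [h5] at h4
  obtain ⟨n, hn⟩ := hP σ
  have hcop : Nat.Coprime j (orderOf σ) := by
    have h4 : orderOf σ ∣ ℓ ^ n := orderOf_dvd_of_pow_eq_one hn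
    exact Nat.Coprime.coprime_dvd_right h4
      (Nat.Coprime.pow_right n ((Nat.Prime.coprime_iff_not_dvd hℓ).2 hj).symm)
  obtain ⟨m, hm⟩ := exists_pow_eq_self_of_coprime hcop
  rw [← hm]
  exact M.pow_mem h3 m

end Pool.Agent.N556.TW
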