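import Pool.Agent.TH888.B1.Roots
import Pool.Agent.N556.TW.Place
import Pool.Agent.N556.TW.Grp

/-! # Polynomials without zeros modulo primes: Frobenius elements (helper556) -/

set_option autoImplicit false

namespace Pool.Agent.N556.TW

open Polynomial NumberField Pool.Agent.W401.Cheb Pool.Agent.TH888.B1

theorem aev_ev {A : Type} [CommRing A] (x : A) (f : ℤ[X]) :
    aeval x f = eval₂ (Int.castRingHom A) x f := by
  rw [aeval_def]
  congr 1
  
theorem ev_map {A B : Type} [CommRing A] [CommRing B] (ρ : A →+* B) (x : A) (f : ℤ[X]) :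
    ρ (eval₂ (Int.castRingHom A) x f) = eval₂ (Int.castRingHom B) (ρ x) f := by
  rw [hom_eval₂]
  congr 1
  exact RingHom.ext_int _ _

theorem ev_scale {A : Type} [CommRing A] (t : A) (g : ℤ[X]) :
    eval₂ (Int.castRingHom A) ((g.leadingCoeff : A) * t) (g.scaleRoots g.leadingCoeff) =
      (g.leadingCoeff : A) ^ g.natDegree * eval₂ (Int.castRingHom A) t g := by
  have h := scaleRoots_eval₂_mul (p := g) (Int.castRingHom A) t g.leadingCoeff
  rw [eq_intCast] at h
  exact h

theorem fac {A B : Type} [CommRing A] [Field B] (i : A →+* B) (hi : Function.Injective i)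
    (g : ℤ[X]) (c : B) (cA : A) (hcA : i cA = c) (G : B[X]) (hG : G = g.map (Int.castRingHom B))
    (hlc : G.leadingCoeff = c) (hs : G.Splits) (Y : B → A) (hY : ∀ α ∈ G.roots, i (Y α) = c * α) :
    C cA * (G.roots.map fun α => C cA * X - C (Y α)).prod =
      C (cA ^ G.roots.card) * g.map (Int.castRingHom A) := by
  apply Polynomial.map_injective i hi
  rw [Polynomial.map_mul, Polynomial.map_mul, Polynomial.map_multiset_prod, Multiset.map_map,
    Polynomial.map_map]
  have e1 : G.roots.map (Polynomial.map i ∘ fun α => C cA * X - C (Y α)) =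
      G.roots.map fun α => C c * (X - C α) := by
    refine Multiset.map_congr rfl fun α hα => ?_
    rw [Function.comp_apply, Polynomial.map_sub, Polynomial.map_mul, Polynomial.map_C,
      Polynomial.map_C, Polynomial.map_X, hcA, hY α hα, C_mul, mul_sub]
  have e2 : i.comp (Int.castRingHom A) = Int.castRingHom B := RingHom.ext_int _ _
  rw [e1, e2, ← hG, Multiset.prod_map_mul, Multiset.map_const', Multiset.prod_replicate,
    Polynomial.map_C, Polynomial.map_C, map_pow, hcA]
  have e3 : G = C c * (G.roots.map fun α => X - C α).prod := by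
    have h1 := hs.eq_prod_roots
    rwa [hlc] at h1
  have e6 : C c * (C c ^ G.roots.card * (G.roots.map fun α => X - C α).prod) =
      C (c ^ G.roots.card) * (C c * (G.roots.map fun α => X - C α).prod) := by
    rw [C_pow]
    ring
  rw [e6, ← e3]

theorem root_of {A B Ω : Type} [CommRing A] [Field Ω] (φ : A →+* Ω) (g : ℤ[X]) (cA : A)
    (R : Multiset B) (Y : B → A) (N : ℕ)
    (h : C cA * (R.map fun α => C cA * X - C (Y α)).prod = C (cA ^ N) * g.map (Int.castRingHom A))
    (u : Ω) (hu : eval₂ (Int.castRingHom Ω) u g = 0) (hc : φ cA ≠ 0) :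
    ∃ α ∈ R, φ (Y α) = φ cA * u := by
  let ψ : A[X] →+* Ω := eval₂RingHom φ u
  have h1 := congrArg ψ h
  rw [map_mul, map_mul, map_multiset_prod, Multiset.map_map] at h1
  have hC : ∀ z, ψ (C z) = φ z := fun z => eval₂_C _ _
  have hX : ψ X = u := eval₂_X _ _
  have hg : ψ (g.map (Int.castRingHom A)) = 0 := by
    change eval₂ φ u (g.map _) = 0
    rw [eval₂_map, ← hu]
    congr 1
    exact RingHom.ext_int _ _
  rw [hC, hg, mul_zero] at h1
  have h3 := (mul_eq_zero.1 h1).resolve_left hc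
  rw [Multiset.prod_eq_zero_iff, Multiset.mem_map] at h3
  obtain ⟨α, hα, h4⟩ := h3
  rw [Function.comp_apply, map_sub, map_mul, hC, hC, hX, sub_eq_zero] at h4
  exact ⟨α, hα, h4.symm⟩

section fields

variable {p : ℕ} [hp : Fact p.Prime]

/-- fields with `p ^ m` elements embed into the algebraic closure of `F_p` -/
theorem embeds {k : Type} [Field k] {m : ℕ} (hc : Nat.card k = p ^ m) :
    Nonempty (k →+* AlgebraicClosure (ZMod p)) := by
  have hfin : Finite k := (Nat.card_pos_iff.1 (by rw [hc]; exact pow_pos hp.out.pos m)).2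
  have hch : CharP k p := by
    have h1 : ((p ^ m : ℕ) : k) = 0 := by
      let _ : Fintype k := Fintype.ofFinite k
      rw [← hc, Nat.card_eq_fintype_card]
      exact FiniteField.cast_card_eq_zero k
    have h2 : (p : k) = 0 := by
      rw [Nat.cast_pow] at h1
      by_contra h
      exact pow_ne_zero m h h1
    exact (CharP.charP_iff_prime_eq_zero hp.out).2 h2
  let _ : Algebra (ZMod p) k := ZMod.algebra k p
  have : Algebra.IsAlgebraic (ZMod p) k := Algebra.IsAlgebraic.of_finite _ _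
  exact ⟨(IsAlgClosed.lift : k →ₐ[ZMod p] AlgebraicClosure (ZMod p)).toRingHom⟩

/-- the solutions of `t ^ (p ^ m) = t` come from a field with `p ^ m` elements -/
theorem comes {m : ℕ} (hm : m ≠ 0) (t : AlgebraicClosure (ZMod p)) (ht : t ^ p ^ m = t) :
    ∃ (ι : GaloisField p m →+* AlgebraicClosure (ZMod p)) (s : GaloisField p m), ι s = t := by
  classical
  let ι : GaloisField p m →+* AlgebraicClosure (ZMod p) :=
    (IsAlgClosed.lift : GaloisField p m →ₐ[ZMod p] AlgebraicClosure (ZMod p)).toRingHom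
  have h1 : 1 < p ^ m := Nat.one_lt_pow hm hp.out.one_lt
  have hQ0 : (X ^ p ^ m - X : (AlgebraicClosure (ZMod p))[X]) ≠ 0 :=
    FiniteField.X_pow_card_sub_X_ne_zero _ h1
  set A : Finset (AlgebraicClosure (ZMod p)) :=
    (X ^ p ^ m - X : (AlgebraicClosure (ZMod p))[X]).roots.toFinset with hA
  have hmem : ∀ u, u ∈ A ↔ u ^ p ^ m = u := by
    intro u
    rw [hA, Multiset.mem_toFinset, mem_roots hQ0]
    simp [sub_eq_zero]
  have hcA : A.card ≤ p ^ m := by
    refine (Multiset.toFinset_card_le _).trans ((card_roots' _).trans ?_)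
    rw [FiniteField.X_pow_card_sub_X_natDegree_eq _ h1]
  let _ : Fintype (GaloisField p m) := Fintype.ofFinite _
  have hcard : Fintype.card (GaloisField p m) = p ^ m := by
    rw [← Nat.card_eq_fintype_card]
    exact GaloisField.card p m hm
  set B : Finset (AlgebraicClosure (ZMod p)) := Finset.univ.image ι with hB
  have hcB : B.card = p ^ m := by
    rw [hB, Finset.card_image_of_injective _ ι.injective, Finset.card_univ, hcard]
  have hsub : B ⊆ A := by
    intro u hu
    rw [hB, Finset.mem_image] at hu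
    obtain ⟨s, -, rfl⟩ := hu
    rw [hmem, ← map_pow, ← hcard, FiniteField.pow_card]
  have hBA : B = A := Finset.eq_of_subset_of_card_le hsub (by rw [hcB]; exact hcA)
  have htA : t ∈ B := by
    rw [hBA, hmem]
    exact ht
  rw [hB, Finset.mem_image] at htA
  obtain ⟨s, -, hs⟩ := htA
  exact ⟨ι, s, hs⟩

theorem int_pow (n : ℤ) (m : ℕ) : (n : AlgebraicClosure (ZMod p)) ^ p ^ m = n := by
  have h := map_intCast (iterateFrobenius (AlgebraicClosure (ZMod p)) p m) n
  rwa [iterateFrobenius_def] at h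

end fields

section gal

variable {L : Type} [Field L] [NumberField L] [IsGalois ℚ L]

theorem frob_pow {p : ℕ} [Fact p.Prime] {σ : Gal(L/ℚ)} {φ : 𝓞 L →+* AlgebraicClosure (ZMod p)}
    (h : ∀ x : 𝓞 L, φ (σ • x) = φ x ^ p) (j : ℕ) (x : 𝓞 L) :
    φ (σ ^ j • x) = φ x ^ p ^ j := by
  induction j with
  | zero => simp
  | succ j ih => rw [pow_succ', mul_smul, h, ih, ← pow_mul, pow_succ]

theorem smul_coe (σ : Gal(L/ℚ)) (x : 𝓞 L) : ((σ • x : 𝓞 L) : L) = σ (x : L) := rfl

/-- a polynomial without zeros in the fields with `p ^ m` elements, `ℓ ∤ m`, for infinitely many `p`: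
an automorphism without fixed zeros -/
theorem sigma_of (g : ℤ[X]) (hg : g.leadingCoeff ≠ 0) {ℓ : ℕ}
    (h : {p : ℕ | p.Prime ∧ Rootless ℓ g p}.Infinite) :
    ∃ σ : Gal(L/ℚ), ∀ α : L, aeval α g = 0 → ∀ j : ℕ, ¬ ℓ ∣ j → (σ ^ j) α ≠ α := by
  obtain ⟨D, hD, hTor⟩ := torsor L
  obtain ⟨p, ⟨hp, hr⟩, hbig⟩ := h.exists_gt (D + g.leadingCoeff.natAbs)
  have hpf : Fact p.Prime := ⟨hp⟩
  have hpD : ¬ p ∣ D := fun hd => by
    have := Nat.le_of_dvd hD hd
    omega
  have hpl : ¬ (p : ℤ) ∣ g.leadingCoeff := fun hd => by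
    have := Nat.le_of_dvd (Int.natAbs_pos.2 hg) (Int.natCast_dvd.1 hd)
    omega
  obtain ⟨h1, h2, -⟩ := hTor p hpD
  have hne : Nonempty (𝓞 L →+* AlgebraicClosure (ZMod p)) := by
    have h3 : 0 < Nat.card (𝓞 L →+* AlgebraicClosure (ZMod p)) := by
      rw [h1]
      exact Nat.card_pos
    exact (Nat.card_pos_iff.1 h3).1
  obtain ⟨φ⟩ := hne
  obtain ⟨σ, hσ, -⟩ := h2 φ ((frobenius (AlgebraicClosure (ZMod p)) p).comp φ)
  have hφ : ∀ x : 𝓞 L, φ (σ • x) = φ x ^ p := fun x => (hσ x).symm
  refine ⟨σ, fun α hα j hj hfix => ?_⟩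
  obtain ⟨y, hy⟩ : ∃ y : 𝓞 L, (y : L) = g.leadingCoeff • α :=
    ⟨⟨_, isIntegral_leadingCoeff_smul g α hα⟩, rfl⟩
  have hyL : (y : L) = (g.leadingCoeff : L) * α := by rw [hy, zsmul_eq_mul]
  have hy2 : σ ^ j • y = y := by
    apply RingOfIntegers.coe_injective
    change ((σ ^ j • y : 𝓞 L) : L) = (y : L)
    rw [smul_coe, hyL, map_mul, map_intCast, hfix]
  have hlc : (g.leadingCoeff : AlgebraicClosure (ZMod p)) ≠ 0 := by
    have h3 : ((g.leadingCoeff : ℤ) : ZMod p) ≠ 0 := by
      rwa [Ne, ZMod.intCast_zmod_eq_zero_iff_dvd]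
    intro h4
    apply h3
    apply (algebraMap (ZMod p) (AlgebraicClosure (ZMod p))).injective
    rw [map_intCast, map_zero]
    exact h4
  obtain ⟨t, ht⟩ : ∃ t, t = φ y / (g.leadingCoeff : AlgebraicClosure (ZMod p)) := ⟨_, rfl⟩
  have ht1 : t ^ p ^ j = t := by
    rw [ht, div_pow, int_pow, ← frob_pow hφ, hy2]
  have hroot : eval₂ (Int.castRingHom (AlgebraicClosure (ZMod p))) t g = 0 := by
    have e1 : eval₂ (Int.castRingHom L) ((g.leadingCoeff : L) * α)
        (g.scaleRoots g.leadingCoeff) = 0 := by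
      rw [ev_scale, ← aev_ev, hα, mul_zero]
    have e2 : eval₂ (Int.castRingHom (𝓞 L)) y (g.scaleRoots g.leadingCoeff) = 0 := by
      apply RingOfIntegers.coe_injective
      have e3 := ev_map (algebraMap (𝓞 L) L) y (g.scaleRoots g.leadingCoeff)
      have e4 : (algebraMap (𝓞 L) L) y = (g.leadingCoeff : L) * α := hyL
      rw [e4, e1] at e3
      rw [map_zero]
      exact e3
    have e5 := congrArg φ e2
    have e6 : φ y = (g.leadingCoeff : AlgebraicClosure (ZMod p)) * t := by
      rw [ht, mul_div_cancel₀ _ hlc]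
    rw [ev_map, map_zero, e6, ev_scale] at e5
    exact (mul_eq_zero.1 e5).resolve_left (pow_ne_zero _ hlc)
  have hj0 : j ≠ 0 := by
    rintro rfl
    exact hj (dvd_zero _)
  obtain ⟨ι, s, hs⟩ := comes hj0 t ht1
  rw [← hs, ← ev_map] at hroot
  have h5 : eval₂ (Int.castRingHom (GaloisField p j)) s g = 0 := ι.injective (by rw [hroot, map_zero])
  exact hr (GaloisField p j) j (GaloisField.card p j hj0) hj s ((aev_ev s g).trans h5)

end gal

end Pool.Agent.N556.TW
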