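import Mathlib

/-! # Pencils `a f(x) = g(y)`: the local obstruction, and rational places (helper556) -/

set_option autoImplicit false

namespace Pool.Agent.N556.TW

open Polynomial NumberField IsDedekindDomain WithZero

/-- `g` has no zeros in the fields with `p ^ m` elements, for all `m` not divisible by `ℓ` -/
def Rootless (ℓ : ℕ) (g : ℤ[X]) (p : ℕ) : Prop :=
  ∀ (k : Type) [Field k] (m : ℕ), Nat.card k = p ^ m → ¬ ℓ ∣ m → ∀ t : k, aeval t g ≠ 0

section val

variable {F Γ : Type} [Field F] [LinearOrderedCommGroupWithZero Γ] (w : Valuation F Γ)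

theorem val_big (hw : ∀ n : ℤ, w (n : F) ≤ 1) (h : ℤ[X]) (hl : w (h.leadingCoeff : F) = 1) (x : F)
    (hx : 1 < w x) : w (aeval x h) = w x ^ h.natDegree := by
  rw [aeval_eq_sum_range, Finset.sum_range_succ]
  have hx0 : 0 < w x := zero_lt_one.trans hx
  have h1 : w (h.coeff h.natDegree • x ^ h.natDegree) = w x ^ h.natDegree := by
    rw [zsmul_eq_mul, map_mul, map_pow]
    have : w ((h.coeff h.natDegree : ℤ) : F) = 1 := hl
    rw [this, one_mul]
  rcases Nat.eq_zero_or_pos h.natDegree with h0 | h0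
  · rw [h0, Finset.range_zero, Finset.sum_empty, zero_add, ← h0]
    exact h1
  have h2 : w (∑ i ∈ Finset.range h.natDegree, h.coeff i • x ^ i) < w x ^ h.natDegree := by
    refine Valuation.map_sum_lt w (pow_pos hx0 _).ne' fun i hi => ?_
    rw [Finset.mem_range] at hi
    rw [zsmul_eq_mul, map_mul, map_pow]
    calc w ((h.coeff i : ℤ) : F) * w x ^ i ≤ 1 * w x ^ i := mul_le_mul_left (hw _) _
      _ = w x ^ i := one_mul _
      _ < w x ^ h.natDegree := pow_lt_pow_right₀ hx hi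
  rw [Valuation.map_add_eq_of_lt_right w (by rw [h1]; exact h2), h1]

theorem val_small (hw : ∀ n : ℤ, w (n : F) ≤ 1) (h : ℤ[X]) (x : F) (hx : w x ≤ 1) :
    w (aeval x h) ≤ 1 := by
  rw [aeval_eq_sum_range]
  refine Valuation.map_sum_le w fun i _ => ?_
  rw [zsmul_eq_mul, map_mul, map_pow]
  exact mul_le_one' (hw _) (pow_le_one₀ zero_le hx)

end val

section local_part

variable {K : Type} [Field K] [NumberField K] (v : HeightOneSpectrum (𝓞 K))

theorem int_le (n : ℤ) : v.valuation K (n : K) ≤ 1 := by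
  have := v.valuation_le_one (K := K) (n : 𝓞 K)
  simpa using this

theorem int_eq {n : ℤ} (hn : (n : 𝓞 K) ∉ v.asIdeal) : v.valuation K (n : K) = 1 := by
  have := (v.valuation_eq_one_iff_notMem (K := K) (r := (n : 𝓞 K))).2 hn
  simpa using this

theorem val_unit {ℓ p m : ℕ} (hcard : Nat.card (𝓞 K ⧸ v.asIdeal) = p ^ m) (hm : ¬ ℓ ∣ m)
    (g : ℤ[X]) (hr : Rootless ℓ g p) (y : K) (hy : v.valuation K y ≤ 1) :
    v.valuation K (aeval y g) = 1 := by
  refine le_antisymm (val_small _ (int_le v) g y hy) ?_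
  by_contra hlt
  rw [not_le] at hlt
  obtain ⟨n, d, hnd⟩ := v.exists_primeCompl_mul_eq_of_integer y hy
  have hdv : (d : 𝓞 K) ∉ v.asIdeal := d.2
  have hmax : v.asIdeal.IsMaximal := v.isMaximal
  let _ : Field (𝓞 K ⧸ v.asIdeal) := Ideal.Quotient.field v.asIdeal
  set q : (𝓞 K)[X] := g.map (Int.castRingHom (𝓞 K)) with hq
  have hqd : q.natDegree = g.natDegree :=
    natDegree_map_eq_of_injective (RingHom.injective_int (Int.castRingHom (𝓞 K))) g
  have e1 := scaleRoots_eval₂_mul (p := q) (algebraMap (𝓞 K) K) y (d : 𝓞 K)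
  have e2 := scaleRoots_eval₂_mul (p := q) (Ideal.Quotient.mk v.asIdeal)
    (Ideal.Quotient.mk v.asIdeal n / Ideal.Quotient.mk v.asIdeal (d : 𝓞 K)) (d : 𝓞 K)
  have hd0 : Ideal.Quotient.mk v.asIdeal (d : 𝓞 K) ≠ 0 := by
    rw [Ne, Ideal.Quotient.eq_zero_iff_mem]
    exact hdv
  rw [mul_comm (algebraMap (𝓞 K) K (d : 𝓞 K)) y, hnd, eval₂_at_apply] at e1
  rw [mul_div_cancel₀ _ hd0, eval₂_at_apply] at e2
  have e3 : eval₂ (algebraMap (𝓞 K) K) y q = aeval y g := by
    rw [hq, eval₂_map, aeval_def]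
    rfl
  have e4 : eval₂ (Ideal.Quotient.mk v.asIdeal)
      (Ideal.Quotient.mk v.asIdeal n / Ideal.Quotient.mk v.asIdeal (d : 𝓞 K)) q =
      aeval (Ideal.Quotient.mk v.asIdeal n / Ideal.Quotient.mk v.asIdeal (d : 𝓞 K)) g := by
    rw [hq, eval₂_map, aeval_def]
    rfl
  rw [e3] at e1
  rw [e4] at e2
  have h1 : v.valuation K (algebraMap (𝓞 K) K (eval n (q.scaleRoots (d : 𝓞 K)))) < 1 := by
    rw [e1, map_mul, map_pow, (v.valuation_eq_one_iff_notMem (K := K)).2 hdv, one_pow, one_mul]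
    exact hlt
  have h2 : eval n (q.scaleRoots (d : 𝓞 K)) ∈ v.asIdeal :=
    (v.valuation_lt_one_iff_mem (K := K) _).1 h1
  have h3 : Ideal.Quotient.mk v.asIdeal (eval n (q.scaleRoots (d : 𝓞 K))) = 0 :=
    Ideal.Quotient.eq_zero_iff_mem.2 h2
  rw [h3] at e2
  have h4 := (mul_eq_zero.1 e2.symm).resolve_left (pow_ne_zero _ hd0)
  exact hr _ m hcard hm _ h4

theorem log_a {e : ℕ} {a : ℤ} (ha : (a : 𝓞 K) ∈ v.asIdeal ^ e)
    (ha' : (a : 𝓞 K) ∉ v.asIdeal ^ (e + 1)) : v.valuation K (a : K) = exp (-(e : ℤ)) := by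
  have h0 : v.valuation K (a : K) = v.intValuation (a : 𝓞 K) := by
    have := v.valuation_of_algebraMap (K := K) (a : 𝓞 K)
    simpa using this
  have h1 := (v.intValuation_le_pow_iff_mem (a : 𝓞 K) e).2 ha
  have h2 : ¬ v.intValuation (a : 𝓞 K) ≤ exp (-((e + 1 : ℕ) : ℤ)) := fun h =>
    ha' ((v.intValuation_le_pow_iff_mem (a : 𝓞 K) (e + 1)).1 h)
  have h3 : v.intValuation (a : 𝓞 K) ≠ 0 := by
    intro h
    exact h2 (by rw [h]; exact zero_le)
  rw [h0]
  rw [← exp_log h3] at h1 h2 ⊢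
  rw [exp_le_exp] at h1 h2
  congr 1
  push_cast at h2
  omega

/-- the local obstruction: no points -/
theorem no_point {ℓ p m e : ℕ} (hcard : Nat.card (𝓞 K ⧸ v.asIdeal) = p ^ m) (hm : ¬ ℓ ∣ m)
    (he : ¬ ℓ ∣ e) (f g : ℤ[X]) (hr : Rootless ℓ g p) (hf : ℓ ∣ f.natDegree) (hg : ℓ ∣ g.natDegree)
    (hlf : (f.leadingCoeff : 𝓞 K) ∉ v.asIdeal) (hlg : (g.leadingCoeff : 𝓞 K) ∉ v.asIdeal) {a : ℤ}
    (ha : (a : 𝓞 K) ∈ v.asIdeal ^ e) (ha' : (a : 𝓞 K) ∉ v.asIdeal ^ (e + 1)) (x y : K) :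
    (a : K) * aeval x f ≠ aeval y g := by
  intro h
  have hw := int_le v
  have hea := log_a v ha ha'
  have he0 : 0 < e := Nat.pos_of_ne_zero (by rintro rfl; exact he (dvd_zero _))
  have hR : ∃ r : ℤ, v.valuation K (aeval y g) = exp (ℓ * r) ∧ 0 ≤ r := by
    rcases le_or_gt (v.valuation K y) 1 with hy | hy
    · exact ⟨0, by rw [val_unit v hcard hm g hr y hy]; simp, le_rfl⟩
    · obtain ⟨c, hc⟩ := hg
      have hy0 : v.valuation K y ≠ 0 := (zero_lt_one.trans hy).ne'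
      refine ⟨c * log (v.valuation K y), ?_, ?_⟩
      · rw [val_big _ hw g (int_eq v hlg) y hy, hc]
        conv_lhs => rw [← exp_log hy0]
        rw [← exp_nsmul]
        congr 1
        simp
        ring
      · have : 0 ≤ log (v.valuation K y) := by
          rw [← exp_le_exp, exp_log hy0, exp_zero]
          exact hy.le
        positivity
  obtain ⟨r, hr1, hr2⟩ := hR
  rw [← h, map_mul, hea] at hr1
  rcases le_or_gt (v.valuation K x) 1 with hx | hx
  · have h1 := val_small _ hw f x hx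
    have h2 : exp (-(e : ℤ)) * v.valuation K (aeval x f) ≤ exp (-(e : ℤ)) * 1 :=
      mul_le_mul_right h1 _
    rw [hr1, mul_one, exp_le_exp] at h2
    have h3 : (0 : ℤ) ≤ ℓ * r := by positivity
    omega
  · obtain ⟨c, hc⟩ := hf
    have hx0 : v.valuation K x ≠ 0 := (zero_lt_one.trans hx).ne'
    rw [val_big _ hw f (int_eq v hlf) x hx, hc] at hr1
    rw [← exp_log hx0, ← exp_nsmul, ← exp_add] at hr1
    have h1 := exp_injective hr1
    apply he
    have h2 : ((ℓ : ℕ) : ℤ) ∣ ((e : ℕ) : ℤ) := by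
      refine ⟨c * log (v.valuation K x) - r, ?_⟩
      simp at h1
      linarith
    exact_mod_cast h2

/-- the local obstruction: no points at infinity -/
theorem no_inf {ℓ e : ℕ} (he : ¬ ℓ ∣ e) (b c : ℤ) (hb : (b : 𝓞 K) ∉ v.asIdeal)
    (hc : (c : 𝓞 K) ∉ v.asIdeal) {a : ℤ}
    (ha : (a : 𝓞 K) ∈ v.asIdeal ^ e) (ha' : (a : 𝓞 K) ∉ v.asIdeal ^ (e + 1)) (z : K) :
    (c : K) * z ^ ℓ ≠ a * b := by
  intro h
  have hea := log_a v ha ha'
  have h1 := congrArg (v.valuation K) h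
  rw [map_mul, map_mul, map_pow, hea, int_eq v hb, int_eq v hc, one_mul, mul_one] at h1
  have hz0 : v.valuation K z ≠ 0 := by
    intro hz
    rw [hz] at h1
    rcases Nat.eq_zero_or_pos ℓ with h0 | h0
    · subst h0
      rw [pow_zero, ← exp_zero] at h1
      have := exp_injective h1
      have : e = 0 := by omega
      exact he (by rw [this])
    · rw [zero_pow h0.ne'] at h1
      exact exp_ne_zero h1.symm
  rw [← exp_log hz0, ← exp_nsmul] at h1
  have h2 := exp_injective h1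
  apply he
  have h3 : ((ℓ : ℕ) : ℤ) ∣ ((e : ℕ) : ℤ) := by
    refine ⟨-log (v.valuation K z), ?_⟩
    simp at h2
    linarith
  exact_mod_cast h3

end local_part

end Pool.Agent.N556.TW
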