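import Pool.Agent.N556.TW.Two
import Pool.Agent.N556.TW.Fin
import Pool.Agent.N342.ORB.Many
import Pool.Agent.N24.RW.All

/-! # Pencils along random orbits (helper556) -/

set_option autoImplicit false

namespace Pool.Agent.N556.TW

open Polynomial NumberField Filter MeasureTheory Topology Pool.Agent.N24.RW
open Pool.Agent.N680.TH (Once)
open Pool.Agent.N342.ORB (DZ one_set)

theorem rootless_scale {ℓ p : ℕ} (hp : p.Prime) {g : ℤ[X]} (hr : Rootless ℓ g p) {d : ℤ}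
    (hd : ¬ (p : ℤ) ∣ d) : Rootless ℓ (C d * g) p := by
  intro k _ m hk hm t h0
  have hm0 : m ≠ 0 := by
    rintro rfl
    exact hm (dvd_zero _)
  have hfin : Finite k := Nat.finite_of_card_ne_zero (by rw [hk]; exact (pow_pos hp.pos m).ne')
  have h1 : ((Nat.card k : ℕ) : k) = 0 := by
    have := Fintype.ofFinite k
    rw [Nat.card_eq_fintype_card]
    exact Nat.cast_card_eq_zero k
  rw [hk, Nat.cast_pow] at h1
  have h2 : (p : k) = 0 := eq_zero_of_pow_eq_zero h1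
  have h3 : (d : k) ≠ 0 := by
    intro h
    obtain ⟨u, w, huw⟩ := (Nat.prime_iff_prime_int.1 hp).coprime_iff_not_dvd.2 hd
    have h4 := congrArg (Int.cast : ℤ → k) huw
    push_cast at h4
    rw [h2, h, mul_zero, mul_zero, add_zero] at h4
    exact zero_ne_one h4
  rw [map_mul, aeval_C] at h0
  rcases mul_eq_zero.1 h0 with h | h
  · exact h3 (by simpa using h)
  · exact hr k m hk hm t h

/-- the number of units modulo `p ^ 2` -/
theorem units_large {p : ℕ} (hp : p.Prime) :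
    (1 / 2 : ℝ) * (p : ℝ) ^ 2 ≤ (({x : ZMod (p ^ 2) | IsUnit x}.ncard : ℕ) : ℝ) := by
  have : NeZero (p ^ 2) := ⟨(pow_pos hp.pos 2).ne'⟩
  have h1 : {x : ZMod (p ^ 2) | IsUnit x} = Set.range (Units.val : (ZMod (p ^ 2))ˣ → ZMod (p ^ 2)) := by
    ext x
    exact Iff.rfl
  rw [h1, ← Set.image_univ, Set.ncard_image_of_injective _ Units.val_injective, Set.ncard_univ,
    Nat.card_eq_fintype_card, ZMod.card_units_eq_totient, Nat.totient_prime_pow hp two_pos]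
  rw [Nat.cast_mul, Nat.cast_sub hp.one_lt.le]
  push_cast
  have h5 : (2 : ℝ) ≤ p := by exact_mod_cast hp.two_le
  nlinarith

theorem pencil_null {ι : Type} [Fintype ι] (lam mu : ι → ℤ)
    (hlm : ∃ i j, lam i * mu j ≠ lam j * mu i) {ℓ : ℕ} {g : ℤ[X]} {b : ℤ} (h : Fam ℓ g b) :
    ProNull {c : ι → ℤ | ¬ ∃ p ∈ Good ℓ g b, Once p (∑ k, lam k * c k) ∧
      ¬ (p : ℤ) ∣ ∑ k, mu k * c k} := by
  refine (clo ι).1 _ _ ?_ (two_null crit clo lam mu hlm (Good ℓ g b) (fun p hp => hp.1.1)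
    (good_diverges h) (fun p => {x : ZMod (p ^ 2) | IsUnit x}) (1 / 2) (by norm_num)
    fun p hp => units_large hp.1.1)
  intro c hc hc'
  apply hc
  obtain ⟨p, hp, h1, h2⟩ := hc'
  refine ⟨p, hp, h1, fun h3 => ?_⟩
  rw [Set.mem_ofPred_eq, ZMod.coe_int_isUnit_iff_isCoprime] at h2
  have h4 : IsCoprime (p : ℤ) (∑ k, mu k * c k) := by
    refine IsCoprime.of_isCoprime_of_dvd_left h2 ?_
    push_cast
    exact dvd_pow_self _ two_ne_zero
  exact (Nat.prime_iff_prime_int.1 hp.1.1).not_isUnit (h4.isUnit_of_dvd' dvd_rfl h3)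

/-- no points on `c f(x) = d g(y)` over the number fields of degree prime to `ℓ` -/
theorem none_two {ℓ : ℕ} (hℓ : ℓ.Prime) (g : ℤ[X]) (b : ℤ) {p : ℕ} (hp : p ∈ Good ℓ g b)
    (hg : ℓ ∣ g.natDegree) (hg0 : 0 < g.natDegree) (f : ℤ[X]) (hf : ℓ ∣ f.natDegree)
    (hf0 : 0 < f.natDegree) (hb : ∃ m : ℕ, f.leadingCoeff ∣ b ^ m) (a : ℤ) (ha : Once p a)
    (d : ℤ) (hd : ¬ (p : ℤ) ∣ d)
    (K : Type) [Field K] [NumberField K] (hK : ¬ ℓ ∣ Module.finrank ℚ K) (F : Type) [Field F]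
    [Algebra K F] (x y : F) (hxy : (a : F) * aeval x f = (d : F) * aeval y g)
    (O : ValuationSubring F) (hO : ∀ c : K, algebraMap K F c ∈ O)
    (hres : ∀ z ∈ O, ∃ c : K, z - algebraMap K F c ∈ O.nonunits) : False := by
  have hd0 : d ≠ 0 := by
    rintro rfl
    exact hd (dvd_zero _)
  have hnd : (C d * g).natDegree = g.natDegree := natDegree_C_mul hd0
  have hlc : (C d * g).leadingCoeff = d * g.leadingCoeff := by
    rw [leadingCoeff_mul, leadingCoeff_C]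
  have hpz : Prime (p : ℤ) := Nat.prime_iff_prime_int.1 hp.1.1
  refine none hℓ (C d * g) b (p := p) ⟨⟨hp.1.1, rootless_scale hp.1.1 hp.1.2 hd⟩, ?_⟩
    (hnd ▸ hg) (hnd ▸ hg0) f hf hf0 hb a ha K hK F x y ?_ O hO hres
  · intro h
    have h' : (p : ℤ) ∣ (C d * g).leadingCoeff * b := h
    rw [hlc, mul_assoc] at h'
    rcases hpz.dvd_or_dvd h' with h1 | h1
    · exact hd h1
    · exact hp.2 h1
  · rw [hxy, map_mul, aeval_C]
    simp

/-- one set of times for all vectors and all pencils -/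
theorem orbits {ι : Type} [Fintype ι] [DecidableEq ι] (hι : 2 ≤ Fintype.card ι) (W : Walk ι) :
    ∀ᵐ w ∂(words W.m), ∃ E : Set ℕ, DZ E ∧ ∀ (v lam mu : ι → ℤ) (ℓ : ℕ) (g : ℤ[X]) (b : ℤ),
      v ≠ 0 → (∃ i j, lam i * mu j ≠ lam j * mu i) → Fam ℓ g b →
        {n : ℕ | n ∉ E ∧ ¬ ∃ p ∈ Good ℓ g b, Once p (∑ k, lam k * orb W v w n k) ∧
          ¬ (p : ℤ) ∣ ∑ k, mu k * orb W v w n k}.Finite := by
  have hcz := countable_poly
  have h1 : ∀ᵐ w ∂(words W.m), ∀ q : {q : (ι → ℤ) × (ι → ℤ) × (ι → ℤ) × ℕ × ℤ[X] × ℤ //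
      q.1 ≠ 0 ∧ (∃ i j, q.2.1 i * q.2.2.1 j ≠ q.2.1 j * q.2.2.1 i) ∧
        Fam q.2.2.2.1 q.2.2.2.2.1 q.2.2.2.2.2},
      DZ {n : ℕ | ¬ ∃ p ∈ Good q.1.2.2.2.1 q.1.2.2.2.2.1 q.1.2.2.2.2.2,
        Once p (∑ k, q.1.2.1 k * orb W q.1.1 w n k) ∧
          ¬ (p : ℤ) ∣ ∑ k, q.1.2.2.1 k * orb W q.1.1 w n k} := by
    rw [ae_all_iff]
    rintro ⟨⟨v, lam, mu, ℓ, g, b⟩, hv, hlm, hF⟩
    have h2 := main ι hι W v hv _ (pencil_null lam mu hlm hF)
    unfold AlmostNever at h2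
    filter_upwards [h2] with w hw
    unfold DZ
    exact hw
  filter_upwards [h1] with w hw
  obtain ⟨E, hE, hE'⟩ := one_set _ hw
  refine ⟨E, hE, fun v lam mu ℓ g b hv hlm hF => ?_⟩
  refine (hE' ⟨(v, lam, mu, ℓ, g, b), hv, hlm, hF⟩).subset ?_
  rintro n ⟨h2, h3⟩
  exact ⟨h3, h2⟩

end Pool.Agent.N556.TW
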