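import Pool.Agent.N24.RW.Stm

/-! # Two linear forms modulo `p ^ 2`: pronull sets (helper556, engine of helper24) -/

set_option autoImplicit false

namespace Pool.Agent.N556.TW

open Finset Pool.Agent.N24.RW

/-- the number of solutions of: `lam x` is divisible by `p` exactly once and `mu x ∈ T` -/
theorem ncard_two {ι : Type} [Fintype ι] [DecidableEq ι] (lam mu : ι → ℤ) (i j : ι) (hij : i ≠ j)
    (p : ℕ) (hp : p.Prime) (h : ¬ (p : ℤ) ∣ lam i * mu j - lam j * mu i)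
    (T : Set (ZMod (p ^ 2))) :
    (p - 1) * (T.ncard * (p ^ 2) ^ (Fintype.card ι - 2)) ≤
      {x : ι → ZMod (p ^ 2) | (p : ZMod (p ^ 2)) * ∑ k, (lam k : ZMod (p ^ 2)) * x k = 0 ∧
        ∑ k, (lam k : ZMod (p ^ 2)) * x k ≠ 0 ∧ ∑ k, (mu k : ZMod (p ^ 2)) * x k ∈ T}.ncard := by
  classical
  have hp0 : 0 < p := hp.pos
  have : NeZero (p ^ 2) := ⟨(pow_pos hp0 2).ne'⟩
  have hu : IsUnit ((lam i * mu j - lam j * mu i : ℤ) : ZMod (p ^ 2)) := by
    rw [ZMod.coe_int_isUnit_iff_isCoprime]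
    have h1 : IsCoprime (p : ℤ) (lam i * mu j - lam j * mu i) :=
      (Nat.prime_iff_prime_int.1 hp).coprime_iff_not_dvd.2 h
    push_cast
    exact h1.pow_left
  obtain ⟨v, hv⟩ : ∃ v : ZMod (p ^ 2), v * ((lam i : ZMod (p ^ 2)) * (mu j : ZMod (p ^ 2)) -
      (lam j : ZMod (p ^ 2)) * (mu i : ZMod (p ^ 2))) = 1 := by
    obtain ⟨u, hu⟩ := hu
    refine ⟨((u⁻¹ : (ZMod (p ^ 2))ˣ) : ZMod (p ^ 2)), ?_⟩
    push_cast at hu
    rw [← hu, Units.inv_mul]
  obtain ⟨R, hR⟩ : ∃ R : Finset ι, R = (univ.erase i).erase j := ⟨_, rfl⟩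
  obtain ⟨z, hz⟩ : ∃ z : ({k : ι // k ≠ i ∧ k ≠ j} → ZMod (p ^ 2)) → ι → ZMod (p ^ 2), ∀ y k,
      z y k = if h : k ≠ i ∧ k ≠ j then y ⟨k, h⟩ else 0 := ⟨_, fun _ _ => rfl⟩
  obtain ⟨S, hS⟩ : ∃ S : (ι → ℤ) → ({k : ι // k ≠ i ∧ k ≠ j} → ZMod (p ^ 2)) → ZMod (p ^ 2),
      ∀ l y, S l y = ∑ k ∈ R, (l k : ZMod (p ^ 2)) * z y k := ⟨_, fun _ _ => rfl⟩
  obtain ⟨G, hG⟩ : ∃ G : ZMod (p ^ 2) → ZMod (p ^ 2) →
      ({k : ι // k ≠ i ∧ k ≠ j} → ZMod (p ^ 2)) → ι → ZMod (p ^ 2), ∀ a b y k, G a b y k =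
      if k = i then v * ((mu j : ZMod (p ^ 2)) * (a - S lam y) - (lam j : ZMod (p ^ 2)) * (b - S mu y))
      else if k = j then v * ((lam i : ZMod (p ^ 2)) * (b - S mu y) -
        (mu i : ZMod (p ^ 2)) * (a - S lam y)) else z y k :=
    ⟨fun a b y k =>
      if k = i then v * ((mu j : ZMod (p ^ 2)) * (a - S lam y) - (lam j : ZMod (p ^ 2)) * (b - S mu y))
      else if k = j then v * ((lam i : ZMod (p ^ 2)) * (b - S mu y) -
        (mu i : ZMod (p ^ 2)) * (a - S lam y)) else z y k, fun _ _ _ _ => rfl⟩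
  have hji : j ≠ i := hij.symm
  have hGi : ∀ a b y, G a b y i = v * ((mu j : ZMod (p ^ 2)) * (a - S lam y) -
      (lam j : ZMod (p ^ 2)) * (b - S mu y)) := by
    intro a b y
    rw [hG, if_pos rfl]
  have hGj : ∀ a b y, G a b y j = v * ((lam i : ZMod (p ^ 2)) * (b - S mu y) -
      (mu i : ZMod (p ^ 2)) * (a - S lam y)) := by
    intro a b y
    rw [hG, if_neg hji, if_pos rfl]
  have hsum : ∀ (l : ι → ℤ) a b y, ∑ k, (l k : ZMod (p ^ 2)) * G a b y k =
      (l i : ZMod (p ^ 2)) * G a b y i + ((l j : ZMod (p ^ 2)) * G a b y j + S l y) := by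
    intro l a b y
    rw [← Finset.add_sum_erase univ _ (mem_univ i), ← Finset.add_sum_erase (univ.erase i) _
      (mem_erase.2 ⟨hji, mem_univ j⟩), hS, ← hR]
    congr 2
    refine Finset.sum_congr rfl fun k hk => ?_
    rw [hR, mem_erase, mem_erase] at hk
    rw [hG, if_neg hk.2.1, if_neg hk.1]
  have hlam : ∀ a b y, ∑ k, (lam k : ZMod (p ^ 2)) * G a b y k = a := by
    intro a b y
    rw [hsum, hGi, hGj]
    linear_combination (a - S lam y) * hv
  have hmu : ∀ a b y, ∑ k, (mu k : ZMod (p ^ 2)) * G a b y k = b := by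
    intro a b y
    rw [hsum, hGi, hGj]
    linear_combination (b - S mu y) * hv
  have hrest : ∀ a b y (k : {k : ι // k ≠ i ∧ k ≠ j}), G a b y k.1 = y k := by
    intro a b y k
    rw [hG, if_neg k.2.1, if_neg k.2.2, hz, dif_pos k.2]
  set f : Fin (p - 1) × (T × ({k : ι // k ≠ i ∧ k ≠ j} → ZMod (p ^ 2))) → (ι → ZMod (p ^ 2)) :=
    fun x => G ((p : ZMod (p ^ 2)) * (((x.1 : ℕ) + 1 : ℕ) : ZMod (p ^ 2))) x.2.1.1 x.2.2 with hf
  have hlt : ∀ a : Fin (p - 1), p * ((a : ℕ) + 1) < p ^ 2 := by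
    intro a
    rw [pow_two]
    have := a.2
    exact Nat.mul_lt_mul_of_pos_left (by omega) hp0
  have hinj : Function.Injective f := by
    intro x y hxy
    have h2 : (p : ZMod (p ^ 2)) * (((x.1 : ℕ) + 1 : ℕ) : ZMod (p ^ 2)) =
        (p : ZMod (p ^ 2)) * (((y.1 : ℕ) + 1 : ℕ) : ZMod (p ^ 2)) := by
      have h0 := congrArg (fun X : ι → ZMod (p ^ 2) => ∑ k, (lam k : ZMod (p ^ 2)) * X k) hxy
      simp only [hf] at h0
      rwa [hlam, hlam] at h0
    have h3 : x.2.1.1 = y.2.1.1 := by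
      have h0 := congrArg (fun X : ι → ZMod (p ^ 2) => ∑ k, (mu k : ZMod (p ^ 2)) * X k) hxy
      simp only [hf] at h0
      rwa [hmu, hmu] at h0
    have h4 : x.2.2 = y.2.2 := by
      funext k
      rw [← hrest ((p : ZMod (p ^ 2)) * (((x.1 : ℕ) + 1 : ℕ) : ZMod (p ^ 2))) x.2.1.1 x.2.2 k,
        ← hrest ((p : ZMod (p ^ 2)) * (((y.1 : ℕ) + 1 : ℕ) : ZMod (p ^ 2))) y.2.1.1 y.2.2 k]
      exact congrFun hxy k.1
    rw [← Nat.cast_mul, ← Nat.cast_mul, ZMod.natCast_eq_natCast_iff, Nat.ModEq,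
      Nat.mod_eq_of_lt (hlt x.1), Nat.mod_eq_of_lt (hlt y.1)] at h2
    have h5 := Nat.eq_of_mul_eq_mul_left hp0 h2
    exact Prod.ext (Fin.ext (by omega)) (Prod.ext (Subtype.ext h3) h4)
  have hsub : Set.range f ⊆ {x : ι → ZMod (p ^ 2) |
      (p : ZMod (p ^ 2)) * ∑ k, (lam k : ZMod (p ^ 2)) * x k = 0 ∧
        ∑ k, (lam k : ZMod (p ^ 2)) * x k ≠ 0 ∧ ∑ k, (mu k : ZMod (p ^ 2)) * x k ∈ T} := by
    rintro _ ⟨x, rfl⟩
    rw [Set.mem_ofPred_eq, hf]
    simp only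
    rw [hlam, hmu]
    refine ⟨?_, ?_, x.2.1.2⟩
    · rw [← mul_assoc, ← Nat.cast_mul, ← pow_two, ZMod.natCast_self, zero_mul]
    · rw [Ne, ← Nat.cast_mul, ZMod.natCast_eq_zero_iff]
      intro h1
      have h2 := Nat.le_of_dvd (by positivity) h1
      have := hlt x.1
      omega
  refine le_trans (le_of_eq ?_) (Set.ncard_le_ncard hsub (Set.toFinite _))
  have hcard : Nat.card {k : ι // k ≠ i ∧ k ≠ j} = Fintype.card ι - 2 := by
    rw [Nat.card_eq_fintype_card, Fintype.card_subtype]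
    have e : (univ.filter fun k : ι => k ≠ i ∧ k ≠ j) = univ \ {i, j} := by
      ext k
      simp
    rw [e, card_sdiff_of_subset (subset_univ _), card_pair hij, card_univ]
  rw [← Set.image_univ, Set.ncard_image_of_injective _ hinj, Set.ncard_univ, Nat.card_prod, Nat.card_fin,
    Nat.card_prod, Nat.card_fun, Nat.card_zmod, Nat.card_coe_set_eq, hcard]

/-- `p` divides `n` exactly once -/
def Onc (p : ℕ) (n : ℤ) : Prop := (p : ℤ) ∣ n ∧ ¬ (p : ℤ) ^ 2 ∣ n

/-- the vectors such that no prime of a set with divergent sum of reciprocals divides `lam c` exactly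
once, with the residue of `mu c` in a set of positive density, form a pronull set -/
theorem two_null (hC : S_CRIT) (hD : S_CLO) {ι : Type} [Fintype ι] (lam mu : ι → ℤ)
    (hlm : ∃ i j, lam i * mu j ≠ lam j * mu i) (P : Set ℕ) (hP : ∀ p ∈ P, p.Prime)
    (hdiv : ¬ Summable (fun n : ℕ => P.indicator (fun n : ℕ => (1 : ℝ) / n) n))
    (T : ∀ p : ℕ, Set (ZMod (p ^ 2))) (c₀ : ℝ) (hc₀ : 0 < c₀)
    (hT : ∀ p ∈ P, c₀ * (p : ℝ) ^ 2 ≤ ((T p).ncard : ℝ)) :
    ProNull {c : ι → ℤ | ¬ ∃ p ∈ P, Onc p (∑ k, lam k * c k) ∧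
      ((∑ k, mu k * c k : ℤ) : ZMod (p ^ 2)) ∈ T p} := by
  classical
  obtain ⟨i, j, hd⟩ := hlm
  have hij : i ≠ j := by
    rintro rfl
    exact hd rfl
  have hd0 : lam i * mu j - lam j * mu i ≠ 0 := sub_ne_zero.2 hd
  set Ω : ∀ p : ℕ, Set (ι → ZMod (p ^ 2)) := fun p => if p ∈ P then
    {x : ι → ZMod (p ^ 2) | (p : ZMod (p ^ 2)) * ∑ k, (lam k : ZMod (p ^ 2)) * x k = 0 ∧
        ∑ k, (lam k : ZMod (p ^ 2)) * x k ≠ 0 ∧ ∑ k, (mu k : ZMod (p ^ 2)) * x k ∈ T p} else ∅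
    with hΩ
  have h := hC ι (fun p => p ^ 2) (fun p hp => Nat.one_le_pow _ _ hp.pos)
    (fun p p' hp hp' hne => Nat.Coprime.pow 2 2 ((Nat.coprime_primes hp hp').2 hne)) Ω
    (lam i * mu j - lam j * mu i).natAbs
    (fun p => c₀ / 2 * P.indicator (fun n : ℕ => (1 : ℝ) / n) p) (fun p => by
      refine mul_nonneg (by positivity) (Set.indicator_nonneg (fun n _ => ?_) p)
      positivity) ?_ ?_
  · refine (hD ι).1 _ _ ?_ h
    intro c hc p hp hpT hmem
    apply hc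
    by_cases hpP : p ∈ P
    · simp only [hΩ, if_pos hpP] at hmem
      obtain ⟨h1, h2, h3⟩ := hmem
      have e1 : ∀ l : ι → ℤ, ∑ k, ((l k : ℤ) : ZMod (p ^ 2)) * ((c k : ℤ) : ZMod (p ^ 2)) =
          ((∑ k, l k * c k : ℤ) : ZMod (p ^ 2)) := by
        intro l
        push_cast
        rfl
      rw [e1] at h1 h2 h3
      refine ⟨p, hpP, ⟨?_, ?_⟩, h3⟩
      · have h3 : (((p : ℤ) * ∑ k, lam k * c k : ℤ) : ZMod (p ^ 2)) = 0 := by
          rw [Int.cast_mul, Int.cast_natCast]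
          exact h1
        rw [ZMod.intCast_zmod_eq_zero_iff_dvd] at h3
        push_cast at h3
        rw [pow_two] at h3
        exact (mul_dvd_mul_iff_left (by exact_mod_cast hp.ne_zero : (p : ℤ) ≠ 0)).1 h3
      · intro h3
        apply h2
        rw [ZMod.intCast_zmod_eq_zero_iff_dvd]
        push_cast
        exact h3
    · simp only [hΩ, if_neg hpP] at hmem
      exact absurd hmem (Set.notMem_empty _)
  · intro hs
    apply hdiv
    have hs2 := hs.mul_left (2 / c₀)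
    refine hs2.congr fun n => ?_
    by_cases hn : n ∈ P
    · rw [if_pos (hP n hn)]
      field_simp
    · rw [Set.indicator_of_notMem hn, mul_zero]
      simp
  · intro p hp hpT
    have hp0 : (0 : ℝ) < p := by exact_mod_cast hp.pos
    by_cases hpP : p ∈ P
    · rw [Set.indicator_of_mem hpP]
      have hpl : ¬ (p : ℤ) ∣ lam i * mu j - lam j * mu i := by
        intro h1
        have h2 := Nat.le_of_dvd (Int.natAbs_pos.2 hd0) (Int.natCast_dvd.1 h1)
        omega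
      have h3 := ncard_two lam mu i j hij p hp hpl (T p)
      have h4 : (((p - 1) * ((T p).ncard * (p ^ 2) ^ (Fintype.card ι - 2)) : ℕ) : ℝ) ≤
          ((Ω p).ncard : ℝ) := by
        rw [hΩ]
        simp only [if_pos hpP]
        exact_mod_cast h3
      refine le_trans ?_ h4
      have hcard : 2 ≤ Fintype.card ι := by
        have := Finset.card_le_univ ({i, j} : Finset ι)
        rw [card_pair hij] at this
        exact this
      obtain ⟨r, hr⟩ : ∃ r, Fintype.card ι = r + 2 := ⟨Fintype.card ι - 2, by omega⟩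
      rw [hr, Nat.add_sub_cancel, Nat.cast_mul, Nat.cast_sub hp.one_lt.le, Nat.cast_mul]
      push_cast
      have h5 : (2 : ℝ) ≤ p := by exact_mod_cast hp.two_le
      have h6 : (0 : ℝ) < ((p : ℝ) ^ 2) ^ r := by positivity
      have e : c₀ / 2 * (1 / (p : ℝ)) * ((p : ℝ) ^ 2) ^ (r + 2) =
          ((p : ℝ) / 2) * (c₀ * (p : ℝ) ^ 2 * ((p : ℝ) ^ 2) ^ r) := by
        rw [pow_add]
        field_simp
      rw [e]
      refine mul_le_mul (by linarith) (mul_le_mul_of_nonneg_right (hT p hpP) h6.le) (by positivity)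
        (by linarith)
    · rw [Set.indicator_of_notMem hpP, mul_zero, zero_mul]
      exact Nat.cast_nonneg _

end Pool.Agent.N556.TW
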